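import Pool.Agent.H29.LG.Targets
import Pool.Agent.H90.SX.DET

/-!
# Row DETM of lgx_modules: the determinant inequality with a prime for every row
-/

set_option autoImplicit false

namespace Pool.Agent.H29.LG

open NumberField Height Finset Polynomial Pool.Agent.H24.RD Pool.Agent.H23.RDD Pool.Agent.H29.RQ
  Pool.Agent.H29.SX Pool.Agent.H67.RD Pool.Agent.H90.SX

theorem pf_DETM (h1 : T_PFX) (h2 : T_DTLM) : T_DETM := by
  classical
  intro M _ _ a ν R pr G A B hR hpr hlin hloc
  choose P hP hPsum _ using fun i : Fin ν => h1 M (pr i) (hpr i).1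
  have hp0 : ∀ i, (pr i : M) ≠ 0 := fun i => by exact_mod_cast (hpr i).1.ne_zero
  set C : Fin a ⊕ Fin ν → Fin R → M := Sum.elim A B with hC
  have hCne : ∀ i, C i ≠ 0 := fun i => hlin.ne_zero i
  set e : Fin a ⊕ Fin ν ≃ Fin R := finSumFinEquiv.trans (finCongr hR) with he
  set D : Matrix (Fin a ⊕ Fin ν) (Fin a ⊕ Fin ν) M := fun i j => C i (e j) with hD
  have hDdet : D.det ≠ 0 := by
    have l1 : LinearIndependent M D.row := by
      have := hlin.map' (LinearEquiv.funCongrLeft M M e).toLinearMap
        (LinearMap.ker_eq_bot.2 (LinearEquiv.funCongrLeft M M e).injective)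
      exact this
    have l2 := (Matrix.linearIndependent_rows_iff_isUnit).1 l1
    rw [Matrix.isUnit_iff_isUnit_det] at l2
    exact l2.ne_zero
  -- the set of places
  have hfin : ((Function.mulSupport fun v : FinitePlace M => v D.det) ∪
      ((⋃ i, (P i : Set (FinitePlace M))) ∪
        (⋃ i, Function.mulSupport fun v : FinitePlace M => ⨆ j, v (C i j)))).Finite :=
    (FinitePlace.hasFiniteMulSupport hDdet).union
      ((Set.finite_iUnion fun i => (P i).finite_toSet).union
        (Set.finite_iUnion fun i => dt_supp (hCne i)))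
  set S : Finset (FinitePlace M) := hfin.toFinset with hS
  have hS1 : Function.mulSupport (fun v : FinitePlace M => v D.det) ⊆ S := by
    intro v hv
    rw [hS, Set.Finite.coe_toFinset]
    exact Or.inl hv
  have hS2 : ∀ i, P i ⊆ S := by
    intro i v hv
    rw [hS, Set.Finite.mem_toFinset]
    exact Or.inr (Or.inl (Set.mem_iUnion.2 ⟨i, hv⟩))
  have hS3 : ∀ i, Function.mulSupport (fun v : FinitePlace M => ⨆ j, v (C i j)) ⊆ S := by
    intro i v hv
    rw [hS, Set.Finite.coe_toFinset]
    exact Or.inr (Or.inr (Set.mem_iUnion.2 ⟨i, hv⟩))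
  have hpf := pf_formula S D.det hDdet hS1
  have hwpos : ∀ (w : InfinitePlace M) i, 0 < ⨆ j, w (C i j) := by
    intro w i
    obtain ⟨j0, hj0⟩ := Function.ne_iff.1 (hCne i)
    exact lt_of_lt_of_le (InfinitePlace.pos_iff.2 hj0) (Finite.le_ciSup_of_le j0 le_rfl)
  have hvpos : ∀ (v : FinitePlace M) i, 0 < ⨆ j, v (C i j) := by
    intro v i
    obtain ⟨j0, hj0⟩ := Function.ne_iff.1 (hCne i)
    exact lt_of_lt_of_le (FinitePlace.pos_iff.2 hj0) (Finite.le_ciSup_of_le j0 le_rfl)
  have hcard : Fintype.card (Fin a ⊕ Fin ν) = R := by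
    rw [Fintype.card_sum, Fintype.card_fin, Fintype.card_fin, hR]
  -- infinite places
  have hinf : ∀ w : InfinitePlace M, Real.log (w D.det) ≤ R * Real.log R +
      ∑ i, Real.log (⨆ j, w (C i j)) := by
    intro w
    have g1 := dt_det w.1 D (fun i => ⨆ j, w (C i j)) (fun i j =>
      Finite.le_ciSup (fun k => w (C i k)) (e j))
    have g2 : 0 < w D.det := InfinitePlace.pos_iff.2 hDdet
    have g3 : (0 : ℝ) < ((Fintype.card (Fin a ⊕ Fin ν)).factorial : ℝ) := by
      exact_mod_cast Nat.factorial_pos _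
    have g4 := Real.log_le_log g2 g1
    rw [Real.log_mul g3.ne' (prod_pos fun i _ => hwpos w i).ne',
      Real.log_prod (fun i _ => (hwpos w i).ne'), hcard] at g4
    have g5 : Real.log (R.factorial : ℝ) ≤ R * Real.log R := by
      rw [← Real.log_pow]
      apply Real.log_le_log (by exact_mod_cast Nat.factorial_pos _)
      exact_mod_cast Nat.factorial_le_pow R
    linarith
  have hinf2 : ∑ w : InfinitePlace M, (w.mult : ℝ) * Real.log (w D.det) ≤
      (Module.finrank ℚ M : ℝ) * (R * Real.log R) +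
      ∑ i, ∑ w : InfinitePlace M, (w.mult : ℝ) * Real.log (⨆ j, w (C i j)) := by
    rw [← InfinitePlace.sum_mult_eq, Nat.cast_sum, sum_mul, sum_comm, ← sum_add_distrib]
    refine sum_le_sum fun w _ => ?_
    rw [← mul_sum, ← mul_add]
    exact mul_le_mul_of_nonneg_left (hinf w) (Nat.cast_nonneg _)
  -- finite places
  have hfinp : ∀ v ∈ S, Real.log (v D.det) ≤
      (∑ i, if v ∈ P i then G i * Real.log (v (pr i : M)) else 0) +
        ∑ i, Real.log (⨆ j, v (C i j)) := by
    intro v _
    have hna : IsNonarchimedean v.1 := fun x y => FinitePlace.add_le v x y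
    have g2 : 0 < v D.det := FinitePlace.pos_iff.2 hDdet
    have hb : ∀ i j, v.1 (D i j) ≤ ⨆ k, v (C i k) := fun i j =>
      Finite.le_ciSup (fun k => v (C i k)) (e j)
    have hre : ∀ (x : Fin a ⊕ Fin ν → M) (y : Fin R → M),
        ∑ j, x j * y (e j) = ∑ k, x (e.symm k) * y k := by
      intro x y
      rw [← Equiv.sum_comp e]
      refine sum_congr rfl fun j _ => ?_
      rw [Equiv.symm_apply_apply]
    set ϖ : Fin ν → ℝ := fun i => if v ∈ P i then v (pr i : M) ^ (G i) else 1 with hϖ
    have hvp : ∀ i, 0 < v (pr i : M) := fun i => FinitePlace.pos_iff.2 (hp0 i)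
    have hϖ0 : ∀ i, 0 < ϖ i := by
      intro i
      simp only [hϖ]
      split_ifs
      · exact Real.rpow_pos_of_pos (hvp i) _
      · exact one_pos
    have hϖ1 : ∀ i, ϖ i ≤ 1 := by
      intro i
      simp only [hϖ]
      split_ifs with hv
      · exact Real.rpow_le_one (hvp i).le ((hP i v).1 hv).le (hpr i).2
      · exact le_rfl
    have g1 := h2 M v.1 hna a ν D ϖ (fun i => ⨆ k, v (C i k)) (fun i => ⟨(hϖ0 i).le, hϖ1 i⟩) hb
      (fun i => (hvpos v i).le) (by
        intro x hx1 hx2 i
        by_cases hv : v ∈ P i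
        · have hv' : v.1 (pr i : M) < 1 := (hP i v).1 hv
          have := hloc i v hv' (fun k => x (e.symm k)) (fun k => hx1 _) (fun i' => by
            rw [← hre x]
            exact hx2 i') (⨆ k, v (C (Sum.inr i) k)) (fun j =>
              Finite.le_ciSup (fun k => v (C (Sum.inr i) k)) j)
          rw [← hre x] at this
          simp only [hϖ, if_pos hv]
          exact this
        · simp only [hϖ, if_neg hv]
          rw [one_mul]
          refine dt_na v univ _ _ (hvpos v _).le fun j _ => ?_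
          have : v (x j * D (Sum.inr i) j) = v (x j) * v (D (Sum.inr i) j) := map_mul v _ _
          rw [this]
          have h3 : v (D (Sum.inr i) j) ≤ ⨆ k, v (C (Sum.inr i) k) := hb _ _
          have h4 : v (x j) ≤ 1 := hx1 j
          have h5 : 0 ≤ v (D (Sum.inr i) j) := apply_nonneg v _
          calc v (x j) * v (D (Sum.inr i) j) ≤ 1 * v (D (Sum.inr i) j) :=
                mul_le_mul_of_nonneg_right h4 h5
            _ ≤ _ := by rw [one_mul]; exact h3)
    have g4 := Real.log_le_log g2 g1
    rw [Real.log_mul (prod_pos fun i _ => hϖ0 i).ne' (prod_pos fun i _ => hvpos v i).ne',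
      Real.log_prod (fun i _ => (hϖ0 i).ne'),
      Real.log_prod (fun i _ => (hvpos v i).ne')] at g4
    refine g4.trans (le_of_eq ?_)
    have e1 : ∀ i, Real.log (ϖ i) = if v ∈ P i then G i * Real.log (v (pr i : M)) else 0 := by
      intro i
      simp only [hϖ]
      split_ifs
      · exact Real.log_rpow (hvp i) _
      · exact Real.log_one
    rw [sum_congr rfl fun i _ => e1 i]
  have hfin2 := sum_le_sum hfinp
  rw [sum_add_distrib, sum_comm] at hfin2
  have hPs : ∀ i, ∑ v ∈ S, (if v ∈ P i then G i * Real.log (v (pr i : M)) else 0) =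
      - (G i * Real.log (pr i) * Module.finrank ℚ M) := by
    intro i
    rw [← sum_filter]
    have hf : S.filter (fun v => v ∈ P i) = P i := by
      ext v
      rw [mem_filter]
      exact ⟨fun h => h.2, fun h => ⟨hS2 i h, h⟩⟩
    rw [hf, ← mul_sum]
    have h3 := hPsum i
    rw [sum_neg_distrib] at h3
    have h4 : ∑ v ∈ P i, Real.log (v.1 (pr i : M)) = ∑ v ∈ P i, Real.log (v (pr i : M)) := rfl
    rw [← h4]
    have h5 : ∑ v ∈ P i, Real.log (v.1 (pr i : M)) = - (Module.finrank ℚ M * Real.log (pr i)) := by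
      linarith
    rw [h5]
    ring
  have hP2 : ∑ i, ∑ v ∈ S, (if v ∈ P i then G i * Real.log (v (pr i : M)) else 0) =
      - ((∑ i, G i * Real.log (pr i)) * Module.finrank ℚ M) := by
    rw [sum_congr rfl fun i _ => hPs i, sum_neg_distrib, sum_mul]
  rw [hP2] at hfin2
  have hcomm : ∑ v ∈ S, ∑ i, Real.log (⨆ j, v (C i j)) =
      ∑ i, ∑ v ∈ S, Real.log (⨆ j, v (C i j)) := sum_comm
  rw [hcomm] at hfin2
  have htot : ∑ i, logHeight (C i) = ∑ i, logHeight (A i) + ∑ i, logHeight (B i) := by
    rw [Fintype.sum_sum_type]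
    rfl
  have htot2 : ∑ i, logHeight (C i) =
      ∑ i, ∑ w : InfinitePlace M, (w.mult : ℝ) * Real.log (⨆ j, w (C i j)) +
      ∑ i, ∑ v ∈ S, Real.log (⨆ j, v (C i j)) := by
    rw [← sum_add_distrib]
    exact sum_congr rfl fun i _ => dt_log (hCne i) S (hS3 i)
  rw [add_assoc, ← htot, htot2]
  linarith [hpf, hinf2, hfin2]

end Pool.Agent.H29.LG
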