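import Pool.Agent.H29.LG.Targets

set_option autoImplicit false

/-!
# MP_c65535_nt, all radicals: targets of the final form

The logarithm of the degree over the field of the radicals at finitely many primes.
-/

namespace Pool.Agent.H29.LG

open NumberField Height Finset Polynomial Pool.Agent.H24.RD Pool.Agent.H23.RDD Pool.Agent.H29.RQ
  Pool.Agent.H29.SX

/-- NUML: choice of the parameter `j`, with a logarithmic loss. -/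
def T_NUML : Prop := ∀ p : ℕ, 2 ≤ p → ∀ A : ℕ, ∃ (c : ℝ) (C : ℕ), 0 < c ∧ ∀ d : ℕ, 0 < d →
  ∃ j : ℕ, 4 * Real.log (d * (p : ℝ) ^ (A * (j + 1))) + 1 ≤ 2 * ((p : ℝ) ^ j - 1) * Real.log p ∧
    c * (p : ℝ) ^ (A * (j + 1)) ≤ (Real.log (3 * d)) ^ C

/-- DPQL: the descent at one prime, with a logarithmic loss. -/
def T_DPQL : Prop := ∀ (F Ω : Type) [Field F] [NumberField F] [Field Ω] [CharZero Ω] [Algebra F Ω]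
  [IsAlgClosed Ω] [Algebra.IsAlgebraic F Ω] (p : ℕ), p.Prime → ∀ (r : ℕ) (γ : Fin r → F),
  MInd F γ → ∃ (c : ℝ) (C : ℕ), 0 < c ∧ ∀ d : ℕ, 0 < d → ∃ k : ℕ,
  c * (p : ℝ) ^ k ≤ (Real.log (3 * d)) ^ C ∧ ∀ n m N' K' : ℕ, m ≤ n → ¬ p ∣ N' → K' ∣ N' →
  ∀ α : Ω, RepD F Ω γ (p ^ n * N') (p ^ m * K') d α →
  absLogHeight₁ α * (d * (Real.log (3 * d)) ^ C) < c →
  RepD F Ω γ (p ^ k * N') (p ^ k * K') d α

/-- DSQL: the descent at finitely many primes, with a logarithmic loss. -/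
def T_DSQL : Prop := ∀ (F Ω : Type) [Field F] [NumberField F] [Field Ω] [CharZero Ω] [Algebra F Ω]
  [IsAlgClosed Ω] [Algebra.IsAlgebraic F Ω] (r : ℕ) (γ : Fin r → F), MInd F γ →
  ∀ S : Finset ℕ, (∀ p ∈ S, p.Prime) → ∃ (c : ℝ) (C : ℕ), 0 < c ∧ ∀ d : ℕ, 0 < d →
  ∃ N0 : ℕ, 0 < N0 ∧ c * (N0 : ℝ) ≤ (Real.log (3 * d)) ^ C ∧
  ∀ N K : ℕ, 0 < N → K ∣ N → ∀ α : Ω, RepD F Ω γ N K d α →
  absLogHeight₁ α * (d * (Real.log (3 * d)) ^ C) < c →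
  ∃ N' K' : ℕ, 0 < N' ∧ K' ∣ N' ∧ K' ∣ K ∧ (∀ p ∈ S, ¬ p ∣ N') ∧
    RepD F Ω γ (N0 * N') (N0 * K') d α

/-- KLVS: the level of a number, relative to a given level. -/
def T_KLVS : Prop := ∀ (F Ω : Type) [Field F] [NumberField F] [Field Ω] [CharZero Ω] [Algebra F Ω]
  [IsAlgClosed Ω] [Algebra.IsAlgebraic F Ω] (r : ℕ) (γ : Fin r → F), MInd F γ →
  ∃ i₀ : ℕ, 0 < i₀ ∧ ∀ (N M d D : ℕ) (β : Ω), 0 < N → M ∣ N → Cj F Ω (Lv F Ω γ N N) d β →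
  Cj F Ω (Lv F Ω γ N M) D β →
  ∃ K k : ℕ, 0 < k ∧ k ≤ D ∧ K ∣ N ∧ K ∣ k * i₀ * M ∧ Cj F Ω (Lv F Ω γ N K) d β

/-- LOGS: the theorem over the level fields, the primes of `S` do not count. -/
def T_LOGS : Prop := ∀ (F Ω : Type) [Field F] [NumberField F] [Field Ω] [CharZero Ω] [Algebra F Ω]
  [IsAlgClosed Ω] [Algebra.IsAlgebraic F Ω] (r : ℕ) (γ : Fin r → F), MInd F γ →
  ∀ S : Finset ℕ, (∀ p ∈ S, p.Prime) → ∃ (c : ℝ) (C : ℕ), 0 < c ∧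
  ∀ N K k M d : ℕ, 0 < N → K ∣ N → K ∣ k * M → 0 < k → (∀ p : ℕ, p.Prime → p ∣ M → p ∈ S) →
  0 < d → ∀ β g : Ω, β ≠ 0 → Cj F Ω (Lv F Ω γ N K) d β → g ∈ Dv F Ω γ → β * g ∉ Dv F Ω γ →
  c ≤ absLogHeight₁ (β * g) * d * (Real.log (3 * d * k)) ^ C

/-- MUNI: the result. -/
def T_MUNI : Prop := ∀ (Γ : Subgroup (AlgebraicClosure ℚ)ˣ), Γ.FG → ∀ S : Finset ℕ,
  ∃ (c : ℝ) (C : ℕ), 0 < c ∧ ∀ L L' : IntermediateField ℚ (AlgebraicClosure ℚ),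
  L = IntermediateField.adjoin ℚ
      {z : AlgebraicClosure ℚ | ∃ n : ℕ, 0 < n ∧ ∃ g ∈ Γ, z ^ n = (g : AlgebraicClosure ℚ)} →
  L' = IntermediateField.adjoin ℚ
      ({z : AlgebraicClosure ℚ | ∃ n : ℕ, 0 < n ∧ z ^ n = 1} ∪
        {z | ∃ n : ℕ, 0 < n ∧ (∀ p : ℕ, p.Prime → p ∣ n → p ∈ S) ∧
          ∃ g ∈ Γ, z ^ n = (g : AlgebraicClosure ℚ)}) →
  ∀ β γ : AlgebraicClosure ℚ, (∃ n : ℕ, 0 < n ∧ ∃ g ∈ Γ, γ ^ n = (g : AlgebraicClosure ℚ)) →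
  β * γ ≠ 0 → (¬ ∃ n : ℕ, 0 < n ∧ ∃ g ∈ Γ, (β * γ) ^ n = (g : AlgebraicClosure ℚ)) →
  c ≤ absLogHeight₁ (β * γ) * Module.finrank L (IntermediateField.adjoin L {β}) *
    (Real.log (3 * Module.finrank L' (IntermediateField.adjoin L' {β}))) ^ C

end Pool.Agent.H29.LG
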