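import Pool.Agent.H29.SX.All
import Pool.Agent.H29.LG.Targets2
import Pool.Agent.H1.LG.CHOA
import Pool.Agent.H1.LG.SFTM
import Pool.Agent.H10.LG.KEBL
import Pool.Agent.H12.LG.CLK
import Pool.Agent.H13.LG.MINK
import Pool.Agent.H14.LG.GR1F
import Pool.Agent.H14.LG.NUML
import Pool.Agent.H14.LG.REPQ
import Pool.Agent.H17.LG.PRMS
import Pool.Agent.H17.LG.UNK
import Pool.Agent.H18.LG.EXTP
import Pool.Agent.H18.LG.KTA
import Pool.Agent.H18.LG.NUK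
import Pool.Agent.H18.LG.UNR
import Pool.Agent.H18.LG.VCL
import Pool.Agent.H19.LG.ANAK
import Pool.Agent.H19.LG.TAME
import Pool.Agent.H19.LG.TAMS
import Pool.Agent.H27.LG.RES
import Pool.Agent.H27.LG.WLD
import Pool.Agent.H29.LG.DETM
import Pool.Agent.H32.LG.ANBK
import Pool.Agent.H32.LG.RWK
import Pool.Agent.H33.LG.MLOG
import Pool.Agent.H35.LG.MUNI
import Pool.Agent.H40.LG.RELK
import Pool.Agent.H46.LG.KLV
import Pool.Agent.H48.LG.FRM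
import Pool.Agent.H51.LG.LOGR
import Pool.Agent.H63.LG.DPQL
import Pool.Agent.H63.LG.KEL
import Pool.Agent.H67.LG.DSQL
import Pool.Agent.H68.LG.GROF
import Pool.Agent.H68.LG.NINF
import Pool.Agent.H69.LG.CFA
import Pool.Agent.H69.LG.LOGL
import Pool.Agent.H70.LG.FRN
import Pool.Agent.H75.LG.DTLM
import Pool.Agent.H75.LG.NRMK
import Pool.Agent.H86.LG.CNTK
import Pool.Agent.H86.LG.DPM
import Pool.Agent.H86.LG.KGA
import Pool.Agent.H86.LG.KLVS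
import Pool.Agent.H86.LG.LOGS
import Pool.Agent.H87.LG.TAM
import Pool.Agent.H90.LG.CORK
import Pool.Agent.H99.LG.NORK
import Pool.Agent.H99.LG.VIS

set_option autoImplicit false

/-!
# MP_c65535_nt, all radicals: assembly
-/

namespace Pool.Agent.H29.LG

open Pool.Agent.H24.RD Pool.Agent.H23.RDD Pool.Agent.H29.RQ Pool.Agent.H29.SX

theorem aCFA : T_CFA := Pool.Agent.H69.LG.pf_CFA aLVB
theorem aCHOA : T_CHOA := Pool.Agent.H1.LG.pf_CHOA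
theorem aCLK : T_CLK := Pool.Agent.H12.LG.pf_CLK aRS aPRF
theorem aCNTK : T_CNTK := Pool.Agent.H86.LG.pf_CNTK
theorem aDTLM : T_DTLM := Pool.Agent.H75.LG.pf_DTLM
theorem aEXTP : T_EXTP := Pool.Agent.H18.LG.pf_EXTP aRS
theorem aFRM : T_FRM := Pool.Agent.H48.LG.pf_FRM
theorem aKEBL : T_KEBL := Pool.Agent.H10.LG.pf_KEBL aPRF aPOWQ aORB aPFX
theorem aKEL : T_KEL := Pool.Agent.H63.LG.pf_KEL aHA aHB aRS aFLD aKEBL
theorem aKTA : T_KTA := Pool.Agent.H18.LG.pf_KTA aSAT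
theorem aMINK : T_MINK := Pool.Agent.H13.LG.pf_MINK aLVB
theorem aNORK : T_NORK := Pool.Agent.H99.LG.pf_NORK
theorem aNRMK : T_NRMK := Pool.Agent.H75.LG.pf_NRMK
theorem aNUK : T_NUK := Pool.Agent.H18.LG.pf_NUK
theorem aNUML : T_NUML := Pool.Agent.H14.LG.pf_NUML
theorem aPRMS : T_PRMS := Pool.Agent.H17.LG.pf_PRMS
theorem aRELK : T_RELK := Pool.Agent.H40.LG.pf_RELK aLVB
theorem aREPQ : T_REPQ := Pool.Agent.H14.LG.pf_REPQ
theorem aRES : T_RES := Pool.Agent.H27.LG.pf_RES aVB aRS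
theorem aRWK : T_RWK := Pool.Agent.H32.LG.pf_RWK aROW
theorem aUNK : T_UNK := Pool.Agent.H17.LG.pf_UNK aVB aRS aLVB
theorem aUNR : T_UNR := Pool.Agent.H18.LG.pf_UNR
theorem aVCL : T_VCL := Pool.Agent.H18.LG.pf_VCL aLVB
theorem aVIS : T_VIS := Pool.Agent.H99.LG.pf_VIS aVB aLVB aUNK
theorem aWLD : T_WLD := Pool.Agent.H27.LG.pf_WLD aLVB aVIS aVCL aKEL
theorem aDETM : T_DETM := pf_DETM aPFX aDTLM
theorem aDPM : T_DPM := Pool.Agent.H86.LG.pf_DPM aPAD aDETM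
theorem aDPQL : T_DPQL := Pool.Agent.H63.LG.pf_DPQL aMON aSTCQ aSTKQ aNUML
theorem aDSQL : T_DSQL := Pool.Agent.H67.LG.pf_DSQL aHB aDPQL
theorem aFRN : T_FRN := Pool.Agent.H70.LG.pf_FRN aVB aLVB aFLD aPFX aFRM aRES
theorem aGR1F : T_GR1F := Pool.Agent.H14.LG.pf_GR1F aREPQ
theorem aGROF : T_GROF := Pool.Agent.H68.LG.pf_GROF aGR1F aGR2
theorem aKGA : T_KGA := Pool.Agent.H86.LG.pf_KGA aSEP aKTA
theorem aKLV : T_KLV := Pool.Agent.H46.LG.pf_KLV aLVB aKGA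
theorem aKLVS : T_KLVS := Pool.Agent.H86.LG.pf_KLVS aLVB aKGA
theorem aNINF : T_NINF := Pool.Agent.H68.LG.pf_NINF aGROF aTWI
theorem aSFTM : T_SFTM := Pool.Agent.H1.LG.SFTM.pf_SFTM aCHOA aGROF aTWI aNINF aCOL
theorem aTAM : T_TAM := Pool.Agent.H87.LG.pf_TAM aLVB aVIS aVCL aKEL
theorem aTAMS : T_TAMS := Pool.Agent.H19.LG.pf_TAMS aLVB aTAM
theorem aANBK : T_ANBK := Pool.Agent.H32.LG.pf_ANBK aFT aDPM aCLK aRWK aFLD aRS
theorem aTAME : T_TAME := Pool.Agent.H19.LG.pf_TAME aLVB aVIS aVCL aUNK aEXTP aTAMS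
theorem aANAK : T_ANAK := Pool.Agent.H19.LG.pf_ANAK aHA aHB aHTS aJHT aNRMK aANBK
theorem aCORK : T_CORK := Pool.Agent.H90.LG.pf_CORK aHB aLVB aRELK aSFTM aNRMK aANAK
theorem aLOGR : T_LOGR := Pool.Agent.H51.LG.pf_LOGR aLVB aHB aFINS aUNR aPRMS aNUK aWLD aTAME aNORK aMINK aFRN aCNTK aCORK
theorem aLOGS : T_LOGS := Pool.Agent.H86.LG.pf_LOGS aHB aREDQ aDSQL aLOGR
theorem aMUNI : T_MUNI := Pool.Agent.H35.LG.pf_MUNI aHB aLVB aLOGS aKLVS aBAS aCFA aCFS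
theorem aLOGL : T_LOGL := Pool.Agent.H69.LG.pf_LOGL aHB aREDQ aLOGR
theorem aMLOG : T_MLOG := Pool.Agent.H33.LG.pf_MLOG aHB aLVB aLOGL aKLV aBAS aCFA

end Pool.Agent.H29.LG
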