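import Pool.Agent.H29.LG.Defs

set_option autoImplicit false

/-!
# MP_c65535_nt, all radicals: targets
-/

namespace Pool.Agent.H29.LG

open NumberField Height Finset Polynomial Pool.Agent.H24.RD Pool.Agent.H23.RDD Pool.Agent.H29.RQ
  Pool.Agent.H29.SX

/-! ## A. Soft algebra -/

/-- REPQ: small representatives modulo a prime power. -/
def T_REPQ : Prop := ∀ (m : ℕ) (N : (Fin m → ℤ) → ℝ), IsNm N → ∀ σ : ℝ, 0 ≤ σ →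
  AddSubgroup.closure {a : Fin m → ℤ | N a ≤ σ} = ⊤ → ∀ p i : ℕ, p.Prime → ∀ a : Fin m → ℤ,
  ∃ b : Fin m → ℤ, (∀ l, ((p ^ i : ℕ) : ℤ) ∣ a l - b l) ∧ N b ≤ (p : ℝ) ^ i * (m * σ)

/-- GR1F: the rank of the values at the twists by the characters of order `q`, upper bound. -/
def T_GR1F : Prop := ∀ (K Ω : Type) [Field K] [Field Ω] [Algebra K Ω] (p i : ℕ), p.Prime →
  ∀ ζ : K, IsPrimitiveRoot ζ (p ^ i) → ∀ (m : ℕ) (y : (Fin m → ℤ) → Ω) (N : (Fin m → ℤ) → ℝ),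
  IsPt y → IsNm N → ∀ σ ρ : ℝ, 0 ≤ σ → AddSubgroup.closure {a : Fin m → ℤ | N a ≤ σ} = ⊤ →
  Module.finrank K (Submodule.span K
      ((fun (a : Fin m → ℤ) (e : Fin m → Fin (p ^ i)) =>
        algebraMap K Ω (ζ ^ (∑ l, ((e l : ℕ) : ℤ) * a l)) * y a) '' {a | N a ≤ (p : ℝ) ^ i * ρ})) ≤
    (p ^ i) ^ m * Module.finrank K (WW K (fun a => y a ^ (p ^ i)) N (ρ + m * σ))

/-- GROF: growth under `q`-th powers. -/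
def T_GROF : Prop := ∀ (K Ω : Type) [Field K] [Field Ω] [Algebra K Ω] (p i : ℕ), p.Prime →
  ∀ ζ : K, IsPrimitiveRoot ζ (p ^ i) → ∀ (m : ℕ) (y : (Fin m → ℤ) → Ω) (N : (Fin m → ℤ) → ℝ),
  IsPt y → IsNm N → ∀ σ ρ : ℝ, 0 ≤ σ → AddSubgroup.closure {a : Fin m → ℤ | N a ≤ σ} = ⊤ →
  StabT K p y N σ →
  Module.finrank K (WW K y N ((p : ℝ) ^ i * ρ - ((p : ℝ) ^ i) ^ m * σ)) ≤
    Module.finrank K (WW K (fun a => y a ^ (p ^ i)) N (ρ + m * σ))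

/-- NINF: if all the relations of one of two powers of a point are relations of the other, then the
powers are conjugate. -/
def T_NINF : Prop := ∀ (K Ω : Type) [Field K] [Field Ω] [Algebra K Ω] (p₁ p₂ i₁ i₂ : ℕ),
  p₁.Prime → p₂.Prime → p₁ ^ i₁ < p₂ ^ i₂ → ∀ ζ₁ ζ₂ : K, IsPrimitiveRoot ζ₁ (p₁ ^ i₁) →
  IsPrimitiveRoot ζ₂ (p₂ ^ i₂) → ∀ (θ₁ θ₂ : Ω ≃+* Ω) (κ₁ κ₂ : K ≃+* K),
  (∀ x, θ₁ (algebraMap K Ω x) = algebraMap K Ω (κ₁ x)) →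
  (∀ x, θ₂ (algebraMap K Ω x) = algebraMap K Ω (κ₂ x)) →
  ∀ (m : ℕ) (y : (Fin m → ℤ) → Ω) (N : (Fin m → ℤ) → ℝ) (σ ρ : ℝ), IsPt y → IsNm N → 0 ≤ σ →
  AddSubgroup.closure {a : Fin m → ℤ | N a ≤ σ} = ⊤ → StabT K p₁ y N σ → StabT K p₂ y N σ →
  8 * ((m * (p₂ : ℝ) ^ i₂ + ((p₂ : ℝ) ^ i₂) ^ m) * σ) ≤ ρ →
  (∀ f : (Fin m → ℤ) →₀ K, Spt N ρ f → ev K (fun a => θ₁ (y a ^ (p₁ ^ i₁))) f = 0 →
    ev K (fun a => θ₂ (y a ^ (p₂ ^ i₂))) f = 0) →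
  ∀ a, N a ≤ ρ → aeval (θ₂ (y a ^ (p₂ ^ i₂))) (minpoly K (θ₁ (y a ^ (p₁ ^ i₁)))) = 0

/-- CHOA: choice of a sublattice, for all primes at once. -/
def T_CHOA : Prop := ∀ (K Ω : Type) [Field K] [Field Ω] [Algebra K Ω] (m : ℕ)
  (y : (Fin m → ℤ) → Ω) (N : (Fin m → ℤ) → ℝ) (σ : ℝ), IsPt y → IsNm N →
  ∀ f : (Fin m → ℤ) →₀ K, f ≠ 0 → Spt N σ f → ev K y f = 0 →
  ∃ (m' : ℕ) (L : (Fin m' → ℤ) →+ (Fin m → ℤ)), m' ≤ m ∧ Function.Injective L ∧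
    (∀ p : ℕ, p.Prime → StabT K p (fun a => y (L a)) (fun a => N (L a)) (2 * σ)) ∧
    AddSubgroup.closure {a : Fin m' → ℤ | N (L a) ≤ 2 * σ} = ⊤ ∧
    ∃ a : Fin m' → ℤ, a ≠ 0 ∧ N (L a) ≤ 2 * σ

/-- SFTM: the columns, for points which are powers with exponents close to each other. -/
def T_SFTM : Prop := ∀ (K Ω : Type) [Field K] [CharZero K] [Field Ω] [Algebra K Ω] (m s t : ℕ),
  1 ≤ t → ∀ (pr ex : ℕ → ℕ) (Q : ℝ) (ζ : ℕ → K) (θ : ℕ → Ω ≃+* Ω) (κ : ℕ → K ≃+* K),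
  (∀ c, c ≤ s → (pr c).Prime ∧ IsPrimitiveRoot (ζ c) (pr c ^ ex c) ∧ (pr c : ℝ) ^ ex c ≤ Q) →
  (∀ c₁ c₂, c₁ < c₂ → c₂ ≤ s → pr c₁ ^ ex c₁ < pr c₂ ^ ex c₂) → ex 0 = 0 →
  (∀ c, 1 ≤ c → c ≤ s → 8 ≤ pr c ^ ex c) →
  (∀ c x, θ c (algebraMap K Ω x) = algebraMap K Ω (κ c x)) → (∀ x, θ 0 x = x) →
  ∀ y : (Fin m → ℤ) → Ω, IsPt y → ∀ N : (Fin m → ℤ) → ℝ, IsNm N → ∀ σ ρ : ℝ, 0 ≤ σ →
  64 * (t + s) * (m + 1) * Q ^ m * σ ≤ ρ →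
  (∃ g : (Fin m → ℤ) →₀ K, g ≠ 0 ∧ Spt N σ g ∧ ev K y g = 0) →
  (∀ (c₁ c₂ : ℕ) (a : Fin m → ℤ), c₁ < c₂ → c₂ ≤ s → a ≠ 0 →
    aeval (θ c₂ (y a ^ (pr c₂ ^ ex c₂))) (minpoly K (θ c₁ (y a ^ (pr c₁ ^ ex c₁)))) ≠ 0) →
  ∃ (R d0 r0 : ℕ) (nn : Fin R → Fin m → ℤ), Function.Injective nn ∧ (∀ j, N (nn j) ≤ ρ) ∧
    1 ≤ r0 ∧ d0 ≤ t ^ m * r0 ∧ d0 + s * r0 ≤ R ∧
    Cols K t s d0 (fun c a => θ c (y a ^ (pr c ^ ex c))) nn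

/-! ## B. Analysis -/

/-- DTLM: a determinant whose last rows are small on the kernel of the first rows. -/
def T_DTLM : Prop := ∀ (M : Type) [Field M] (v : AbsoluteValue M ℝ), IsNonarchimedean v →
  ∀ (a ν : ℕ) (D : Matrix (Fin a ⊕ Fin ν) (Fin a ⊕ Fin ν) M) (ϖ : Fin ν → ℝ)
  (b : Fin a ⊕ Fin ν → ℝ), (∀ i, 0 ≤ ϖ i ∧ ϖ i ≤ 1) → (∀ i j, v (D i j) ≤ b i) → (∀ i, 0 ≤ b i) →
  (∀ x : Fin a ⊕ Fin ν → M, (∀ j, v (x j) ≤ 1) → (∀ i : Fin a, ∑ j, x j * D (Sum.inl i) j = 0) →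
    ∀ i : Fin ν, v (∑ j, x j * D (Sum.inr i) j) ≤ ϖ i * b (Sum.inr i)) →
  v D.det ≤ (∏ i, ϖ i) * ∏ i, b i

/-- DETM: the determinant inequality with a prime for every row. -/
def T_DETM : Prop := ∀ (M : Type) [Field M] [NumberField M] (a ν R : ℕ) (pr : Fin ν → ℕ)
  (G : Fin ν → ℝ) (A : Fin a → Fin R → M) (B : Fin ν → Fin R → M), a + ν = R →
  (∀ i, (pr i).Prime ∧ 0 ≤ G i) → LinearIndependent M (Sum.elim A B) →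
  (∀ (i : Fin ν) (v : FinitePlace M), v.1 (pr i : M) < 1 → ∀ x : Fin R → M, (∀ j, v.1 (x j) ≤ 1) →
    (∀ i', ∑ j, x j * A i' j = 0) → ∀ b : ℝ, (∀ j, v.1 (B i j) ≤ b) →
    v.1 (∑ j, x j * B i j) ≤ v.1 (pr i : M) ^ (G i) * b) →
  (∑ i, G i * Real.log (pr i)) * Module.finrank ℚ M ≤ Module.finrank ℚ M * (R * Real.log R) +
    ∑ i, logHeight (A i) + ∑ i, logHeight (B i)

/-- DPM: the determinant inequality for jets and values. -/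
def T_DPM : Prop := ∀ (M : Type) [Field M] [NumberField M] (r t R a ν : ℕ), a + ν = R →
  ∀ (pr : Fin ν → ℕ) (G : Fin ν → ℝ), (∀ i, (pr i).Prime ∧ 0 ≤ G i) →
  ∀ (nn : Fin R → Fin (r + 1) → ℤ) (uA : Fin a → M) (γA : Fin a → Fin r → M)
  (κA : Fin a → Fin (r + 1) → ℕ) (wB : Fin ν → M) (γB : Fin ν → Fin r → M), (∀ i, wB i ≠ 0) →
  LinearIndependent M (Sum.elim
    (fun (i : Fin a) (j : Fin R) => jc M (κA i) (nn j) * pt (γA i) (uA i) (nn j))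
    (fun (i : Fin ν) (j : Fin R) => pt (γB i) (wB i) (nn j))) →
  (∀ (i : Fin ν) (v : FinitePlace M), v.1 (pr i : M) < 1 →
    ∃ (γ0 : Fin r → M) (U : Finset M), (∀ u ∈ U, u ≠ 0) ∧
      (∀ l, v.1 (γ0 l) = 1 ∧ v.1 (γB i l) = 1 ∧
        v.1 (γB i l - γ0 l) ≤ v.1 (pr i : M) ^ (G i)) ∧
      ∏ u ∈ U, dch v.1 (wB i) u ≤ v.1 (pr i : M) ^ (G i) ∧
      ∀ x : Fin R → M,
        (∀ i', ∑ j, x j * (jc M (κA i') (nn j) * pt (γA i') (uA i') (nn j)) = 0) →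
        ∀ u ∈ U, ∀ κ : Fin (r + 1) → ℕ, ∑ l, κ l < t →
          ∑ j, x j * (jc M κ (nn j) * pt γ0 u (nn j)) = 0) →
  (∑ i, t * G i * Real.log (pr i)) * Module.finrank ℚ M ≤
    Module.finrank ℚ M * (R * Real.log R) +
    ∑ i, logHeight (fun j => jc M (κA i) (nn j) * pt (γA i) (uA i) (nn j)) +
    ∑ i, logHeight (fun j => pt (γB i) (wB i) (nn j))

/-- NRMK: the norm of a translate. -/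
def T_NRMK : Prop := ∀ (r : ℕ) (lam H : ℝ) (ξ : Fin r → ℝ), 0 < lam → 0 < H →
  (∀ i, 0 ≤ ξ i ∧ ξ i ≤ 1) → IsNm (nrm r lam H ξ) ∧ ∀ ρ : ℝ, 0 ≤ ρ →
  (∀ a, nrm r lam H ξ a ≤ ρ → |(a 0 : ℝ)| ≤ ρ / lam ∧
    (∀ i, |(a i.succ : ℝ) - a 0 * ξ i| ≤ ρ / H) ∧ ∀ l, |(a l : ℝ)| ≤ ρ / H + ρ / lam) ∧
  ∀ (R : ℕ) (nn : Fin R → Fin (r + 1) → ℤ), Function.Injective nn →
    (∀ j, nrm r lam H ξ (nn j) ≤ ρ) → (R : ℝ) ≤ (2 * (ρ / H + ρ / lam) + 1) ^ (r + 1)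

/-- CNTK: lattice points in a thin neighbourhood of a line. -/
def T_CNTK : Prop := ∀ r : ℕ, ∃ c : ℝ, 0 < c ∧ ∀ (lam H σ : ℝ) (ξ : Fin r → ℝ),
  0 < lam → 0 < H → 0 < σ → ∃ S : Finset (Fin (r + 1) → ℤ), (∀ a ∈ S, nrm r lam H ξ a ≤ σ) ∧
    c * σ ^ (r + 1) / (lam * H ^ r) ≤ S.card

/-! ## C. Primes and ramification -/

/-- UNR: almost all primes are good. -/
def T_UNR : Prop := ∀ (F : Type) [Field F] [NumberField F] (r : ℕ) (γ : Fin r → F),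
  (∀ i, γ i ≠ 0) → ∃ Y0 : ℕ, ∀ p : ℕ, p.Prime → Y0 ≤ p → GoodP F γ p

/-- EXTP: extension of finite places. -/
def T_EXTP : Prop := ∀ (M M' : Type) [Field M] [NumberField M] [Field M'] [NumberField M']
  [Algebra M M'] (w : FinitePlace M), ∃ (w' : FinitePlace M') (k : ℝ), 0 < k ∧
  ∀ x : M, w'.1 (algebraMap M M' x) = (w.1 x) ^ k

/-- UNK: a good prime which does not divide the level is unramified in the level field. -/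
def T_UNK : Prop := ∀ (F Ω : Type) [Field F] [NumberField F] [Field Ω] [CharZero Ω] [Algebra F Ω]
  [IsAlgClosed Ω] [Algebra.IsAlgebraic F Ω] (r : ℕ) (γ : Fin r → F), (∀ i, γ i ≠ 0) →
  ∀ p : ℕ, GoodP F γ p → ∀ N K : ℕ, 0 < N → K ∣ N → ¬ p ∣ N →
  ∀ (M : IntermediateField F Ω) [NumberField M], Lv F Ω γ N K ≤ M →
  ∀ w : FinitePlace M, w.1 (p : M) < 1 → ∀ x : M, (x : Ω) ∈ Lv F Ω γ N K → x ≠ 0 →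
  ∃ n : ℤ, w.1 x = w.1 (p : M) ^ n

/-- VIS: the automorphisms which fix the lower level field move the elements only slightly. -/
def T_VIS : Prop := ∀ (F Ω : Type) [Field F] [NumberField F] [Field Ω] [CharZero Ω] [Algebra F Ω]
  [IsAlgClosed Ω] [Algebra.IsAlgebraic F Ω] (r : ℕ) (γ : Fin r → F), (∀ i, γ i ≠ 0) →
  ∀ p : ℕ, GoodP F γ p → ∀ N K : ℕ, 0 < N → K ∣ N → ¬ p ∣ K → p ∣ N →
  ∀ σ : Ω ≃ₐ[F] Ω, (∀ z ∈ Lv F Ω γ (N / p) K, σ z = z) →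
  ∀ (M : IntermediateField F Ω) [NumberField M], Lv F Ω γ N K ≤ M →
  ∀ w : FinitePlace M, w.1 (p : M) < 1 → ∀ x x' : M, (x : Ω) ∈ Lv F Ω γ N K →
  (x' : Ω) = σ (x : Ω) →
  w.1 x' = w.1 x ∧ (w.1 x ≤ 1 → w.1 (x' - x) ≤ w.1 (p : M) ^ (1 / (p : ℝ)))

/-- VCL: these automorphisms are few and central. -/
def T_VCL : Prop := ∀ (F Ω : Type) [Field F] [NumberField F] [Field Ω] [CharZero Ω] [Algebra F Ω]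
  [IsAlgClosed Ω] [Algebra.IsAlgebraic F Ω] (r : ℕ) (γ : Fin r → F), (∀ i, γ i ≠ 0) →
  ∀ p : ℕ, p.Prime → ∀ N K : ℕ, 0 < N → K ∣ N → ¬ p ∣ K → p ∣ N →
  0 < (Lv F Ω γ N K).fixingSubgroup.relIndex (Lv F Ω γ (N / p) K).fixingSubgroup ∧
  (Lv F Ω γ N K).fixingSubgroup.relIndex (Lv F Ω γ (N / p) K).fixingSubgroup ≤ p ∧
  (p ^ 2 ∣ N →
    (Lv F Ω γ N K).fixingSubgroup.relIndex (Lv F Ω γ (N / p) K).fixingSubgroup ∣ p) ∧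
  ∀ σ ∈ (Lv F Ω γ (N / p) K).fixingSubgroup, ∀ τ : Ω ≃ₐ[F] Ω, ∀ z ∈ Lv F Ω γ N K,
    σ (τ z) = τ (σ z)

/-- KEBL: the determinant of one element, for automorphisms which are close to the identity on the
integers. -/
def T_KEBL : Prop := ∀ (F E M : Type) [Field F] [NumberField F] [Field E] [NumberField E] [Field M]
  [NumberField M] [Algebra F E] [Algebra F M] [Algebra E M] [IsScalarTower F E M]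
  [FiniteDimensional F E] [FiniteDimensional F M] [IsGalois F E] [IsGalois F M] (p : ℕ), p.Prime →
  ∀ (V : Subgroup (E ≃ₐ[F] E)) (T d : ℕ), 0 < T → 0 < d → Nat.card V ≤ T →
  (∀ s ∈ V, ∀ t ∈ V, s * t = t * s) → ∀ b g : M, b ≠ 0 → g ≠ 0 →
  (∃ s : Finset M, s.card ≤ d ∧ ∀ σ : M ≃ₐ[F] M,
    (∀ y : E, σ (algebraMap E M y) = algebraMap E M y) → σ b ∈ s) →
  (∀ σ : M ≃ₐ[F] M, (∀ y : E, σ (algebraMap E M y) = algebraMap E M y) →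
    (σ b) ^ p = b ^ p → σ b = b) →
  (∀ v : FinitePlace M, v.1 (p : M) < 1 → v.1 g = 1 ∧ ∀ t ∈ V, ∀ x : E,
    v.1 (algebraMap E M (t x)) = v.1 (algebraMap E M x) ∧
    (v.1 (algebraMap E M x) ≤ 1 →
      v.1 (algebraMap E M (t x - x)) ≤ v.1 (p : M) ^ (1 / (p : ℝ)))) →
  ∀ H : ℝ, (∀ σ : M ≃ₐ[F] M, logHeight₁ (σ b * g) ≤ H) →
  ∃ B ≤ V, (∀ w ∈ B, ∃ σ : M ≃ₐ[F] M, (∀ y : E, σ (algebraMap E M y) = algebraMap E M (w y)) ∧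
      (σ b) ^ p = b ^ p) ∧
    Module.finrank ℚ M * (((B.relIndex V : ℝ) - 1) * Real.log p) ≤
      Module.finrank ℚ M * (2 * Real.log (d * T)) + 2 * (d * T * p) * H

/-- KEL: the same for automorphisms of `Ω`. -/
def T_KEL : Prop := ∀ (F Ω : Type) [Field F] [NumberField F] [Field Ω] [CharZero Ω] [Algebra F Ω]
  [IsAlgClosed Ω] [Algebra.IsAlgebraic F Ω] (p : ℕ), p.Prime → ∀ E₀ E : IntermediateField F Ω,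
  E₀ ≤ E → FiniteDimensional F E → (∀ (τ : Ω ≃ₐ[F] Ω), ∀ z ∈ E, τ z ∈ E) →
  (∀ (τ : Ω ≃ₐ[F] Ω), ∀ z ∈ E₀, τ z ∈ E₀) →
  E.fixingSubgroup.relIndex E₀.fixingSubgroup ≤ p →
  (∀ σ ∈ E₀.fixingSubgroup, ∀ τ ∈ E₀.fixingSubgroup, ∀ z ∈ E, σ (τ z) = τ (σ z)) →
  (∀ σ : Ω ≃ₐ[F] Ω, (∀ z ∈ E₀, σ z = z) → ∀ (M : IntermediateField F Ω) [NumberField M], E ≤ M →
    ∀ w : FinitePlace M, w.1 (p : M) < 1 → ∀ x x' : M, (x : Ω) ∈ E → (x' : Ω) = σ (x : Ω) →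
    w.1 x' = w.1 x ∧ (w.1 x ≤ 1 → w.1 (x' - x) ≤ w.1 (p : M) ^ (1 / (p : ℝ)))) →
  ∀ (d : ℕ) (β g : Ω), 0 < d → β ≠ 0 → g ≠ 0 → Cj F Ω E d β → Red F Ω E β →
  (∃ (i : ℕ) (a : F), 0 < i ∧ g ^ i = algebraMap F Ω a ∧
    ∀ w : FinitePlace F, w.1 (p : F) < 1 → w.1 a = 1) →
  ∃ B : Subgroup (Ω ≃ₐ[F] Ω), E.fixingSubgroup ≤ B ∧ B ≤ E₀.fixingSubgroup ∧
    (∀ τ ∈ B, ∃ τ' : Ω ≃ₐ[F] Ω, (∀ z ∈ E, τ' z = τ z) ∧ (τ' β) ^ p = β ^ p) ∧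
    ((B.relIndex E₀.fixingSubgroup : ℝ) - 1) * Real.log p ≤
      2 * Real.log (d * p) + 2 * d * (p : ℝ) ^ 2 * absLogHeight₁ (β * g)

/-- WLD: the wild step. -/
def T_WLD : Prop := ∀ (F Ω : Type) [Field F] [NumberField F] [Field Ω] [CharZero Ω] [Algebra F Ω]
  [IsAlgClosed Ω] [Algebra.IsAlgebraic F Ω] (r : ℕ) (γ : Fin r → F), (∀ i, γ i ≠ 0) →
  ∀ p : ℕ, GoodP F γ p → ∀ N K d : ℕ, 0 < N → K ∣ N → ¬ p ∣ K → p ^ 2 ∣ N → 0 < d →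
  2 * Real.log (d * p) + 1 < ((p : ℝ) - 1) * Real.log p → ∀ α : Ω, RepD F Ω γ N K d α →
  2 * d * (p : ℝ) ^ 2 * absLogHeight₁ α ≤ 1 → RepD F Ω γ (N / p) K d α

/-- TAM: the tame case at one prime. -/
def T_TAM : Prop := ∀ (F Ω : Type) [Field F] [NumberField F] [Field Ω] [CharZero Ω] [Algebra F Ω]
  [IsAlgClosed Ω] [Algebra.IsAlgebraic F Ω] (r : ℕ) (γ : Fin r → F), (∀ i, γ i ≠ 0) →
  ∀ p : ℕ, GoodP F γ p → ∀ N K d : ℕ, 0 < N → K ∣ N → ¬ p ∣ K → p ∣ N → ¬ p ^ 2 ∣ N → 0 < d →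
  ∀ β g : Ω, β ≠ 0 → Cj F Ω (Lv F Ω γ N K) d β → Red F Ω (Lv F Ω γ N K) β → g ∈ Dv F Ω γ →
  2 * d * (p : ℝ) ^ 2 * absLogHeight₁ (β * g) ≤ 1 →
  ∃ (η : Ω) (B : Subgroup (Ω ≃ₐ[F] Ω)), η ^ p = 1 ∧ (Lv F Ω γ N K).fixingSubgroup ≤ B ∧
    B ≤ (Lv F Ω γ (N / p) K).fixingSubgroup ∧
    ((B.relIndex (Lv F Ω γ (N / p) K).fixingSubgroup : ℝ) - 1) * Real.log p ≤
      2 * Real.log (d * p) + 1 ∧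
    ∀ τ ∈ B, ∃ τ' : Ω ≃ₐ[F] Ω, (∀ z ∈ Lv F Ω γ N K, τ' z = τ z) ∧ τ' (β * η) = β * η

/-- TAMS: the tame case at several primes. -/
def T_TAMS : Prop := ∀ (F Ω : Type) [Field F] [NumberField F] [Field Ω] [CharZero Ω] [Algebra F Ω]
  [IsAlgClosed Ω] [Algebra.IsAlgebraic F Ω] (r : ℕ) (γ : Fin r → F), (∀ i, γ i ≠ 0) →
  ∀ (P : Finset ℕ) (N K d : ℕ), 0 < N → K ∣ N → 0 < d →
  (∀ p ∈ P, GoodP F γ p ∧ ¬ p ∣ K ∧ p ∣ N ∧ ¬ p ^ 2 ∣ N) → ∀ α : Ω, RepD F Ω γ N K d α →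
  (∀ p ∈ P, 2 * d * (p : ℝ) ^ 2 * absLogHeight₁ α ≤ 1) →
  ∃ (β g : Ω) (B : ℕ → Subgroup (Ω ≃ₐ[F] Ω)), β ≠ 0 ∧ g ∈ Dv F Ω γ ∧ α = β * g ∧
    Cj F Ω (Lv F Ω γ N K) d β ∧ Red F Ω (Lv F Ω γ N K) β ∧
    ∀ p ∈ P, (Lv F Ω γ N K).fixingSubgroup ≤ B p ∧
      B p ≤ (Lv F Ω γ (N / p) K).fixingSubgroup ∧
      (((B p).relIndex (Lv F Ω γ (N / p) K).fixingSubgroup : ℝ) - 1) * Real.log p ≤
        2 * Real.log (d * p) + 1 ∧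
      ∀ τ ∈ B p, ∃ τ' : Ω ≃ₐ[F] Ω, (∀ z ∈ Lv F Ω γ N K, τ' z = τ z) ∧ τ' β = β

/-- TAME: a field with little ramification. -/
def T_TAME : Prop := ∀ (F Ω : Type) [Field F] [NumberField F] [Field Ω] [CharZero Ω] [Algebra F Ω]
  [IsAlgClosed Ω] [Algebra.IsAlgebraic F Ω] (r : ℕ) (γ : Fin r → F), (∀ i, γ i ≠ 0) →
  ∀ (P : Finset ℕ) (N K d : ℕ), 0 < N → K ∣ N → 0 < d →
  (∀ p ∈ P, GoodP F γ p ∧ ¬ p ∣ K ∧ ¬ p ^ 2 ∣ N) → ∀ α : Ω, RepD F Ω γ N K d α →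
  (∀ p ∈ P, 2 * d * (p : ℝ) ^ 2 * absLogHeight₁ α ≤ 1) →
  ∃ (β g : Ω) (E : IntermediateField F Ω), β ≠ 0 ∧ g ∈ Dv F Ω γ ∧ α = β * g ∧
    E ≤ Lv F Ω γ N K ∧ Lv F Ω γ K K ≤ E ∧ (∀ (τ : Ω ≃ₐ[F] Ω), ∀ z ∈ E, τ z ∈ E) ∧
    Cj F Ω E d β ∧ Red F Ω E β ∧
    ∀ p ∈ P, RamL F Ω E p (Real.log p / (2 * Real.log (d * p) + 1 + Real.log p))

/-! ## D. The Frobenius substitutions -/

/-- FRM: Frobenius elements. -/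
def T_FRM : Prop := ∀ (C M : Type) [Field C] [NumberField C] [Field M] [NumberField M]
  [Algebra C M] [IsGalois C M] (p f : ℕ), p.Prime → 0 < f → ∀ w : FinitePlace M,
  w.1 (p : M) < 1 →
  (∀ x : C, w.1 (algebraMap C M x) ≤ 1 → w.1 (algebraMap C M (x ^ (p ^ f) - x)) < 1) →
  ∃ ψ : M ≃ₐ[C] M, (∀ x, w.1 (ψ x) = w.1 x) ∧ ∀ x, w.1 x ≤ 1 → w.1 (ψ x - x ^ (p ^ f)) < 1

/-- RES: the residue fields of the fields `F (ζ)`, `ζ` of order a power of `p`. -/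
def T_RES : Prop := ∀ (F M : Type) [Field F] [NumberField F] [Field M] [NumberField M]
  [Algebra F M] (p v : ℕ), p.Prime → ∀ w : FinitePlace M, w.1 (p : M) < 1 → ∀ ζ : M,
  IsPrimitiveRoot ζ (p ^ v) → ∀ x ∈ IntermediateField.adjoin F {ζ}, w.1 x ≤ 1 →
  w.1 (x ^ (p ^ (Module.finrank ℚ F).factorial) - x) < 1

/-- FRN: the Frobenius substitutions. -/
def T_FRN : Prop := ∀ (F Ω : Type) [Field F] [NumberField F] [Field Ω] [CharZero Ω] [Algebra F Ω]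
  [IsAlgClosed Ω] [Algebra.IsAlgebraic F Ω] (r : ℕ) (γ : Fin r → F), (∀ i, γ i ≠ 0) →
  ∀ p N K : ℕ, p.Prime → 0 < N → K ∣ N → ∀ E : IntermediateField F Ω, E ≤ Lv F Ω γ N K →
  (∀ (τ : Ω ≃ₐ[F] Ω), ∀ z ∈ E, τ z ∈ E) → ∀ δ : ℝ, 0 < δ → RamL F Ω E p δ →
  ∃ Φ : Ω ≃ₐ[F] Ω, FroK F Ω (Lv F Ω γ N 1) E p (p ^ (Module.finrank ℚ F).factorial) δ Φ

/-- MINK: if the number of conjugates is minimal then the conjugates over `E` are conjugates over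
all the larger level fields. -/
def T_MINK : Prop := ∀ (F Ω : Type) [Field F] [NumberField F] [Field Ω] [CharZero Ω] [Algebra F Ω]
  [IsAlgClosed Ω] [Algebra.IsAlgebraic F Ω] (r : ℕ) (γ : Fin r → F), (∀ i, γ i ≠ 0) →
  ∀ (N K d : ℕ) (β g : Ω) (E : IntermediateField F Ω), 0 < N → K ∣ N → β ≠ 0 →
  E ≤ Lv F Ω γ N K → Cj F Ω E d β → Red F Ω E β → g ∈ Dv F Ω γ →
  (∀ N₁ d₁ : ℕ, 0 < N₁ → K ∣ N₁ → RepD F Ω γ N₁ K d₁ (β * g) → d ≤ d₁) →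
  ∃ X : Finset Ω, X.card ≤ d ∧ (∀ σ : Ω ≃ₐ[F] Ω, (∀ z ∈ E, σ z = z) → σ β ∈ X) ∧
    ∀ N₂ : ℕ, 0 < N₂ → N ∣ N₂ → ∀ y ∈ X, ∃ σ : Ω ≃ₐ[F] Ω,
      (∀ z ∈ Lv F Ω γ N₂ K, σ z = z) ∧ σ β = y

/-- NORK: normalisation of the element of the division group. -/
def T_NORK : Prop := ∀ (F Ω : Type) [Field F] [NumberField F] [Field Ω] [CharZero Ω] [Algebra F Ω]
  [IsAlgClosed Ω] [Algebra.IsAlgebraic F Ω] (r : ℕ) (γ : Fin r → F), (∀ i, γ i ≠ 0) →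
  ∀ K : ℕ, 0 < K → ∀ T : Fin r → Ω, (∀ i, T i ^ K = algebraMap F Ω (γ i)) →
  ∀ (E : IntermediateField F Ω) (d : ℕ) (β g : Ω), (∀ i, T i ∈ E) → β ≠ 0 → Cj F Ω E d β →
  Red F Ω E β → g ∈ Dv F Ω γ → ∃ (β' g' : Ω) (n : ℕ) (x : Fin r → ℤ), β' ≠ 0 ∧ g' ≠ 0 ∧
    β' * g' = β * g ∧ Cj F Ω E d β' ∧ Red F Ω E β' ∧ g' ∈ Dv F Ω γ ∧ 0 < n ∧
    g' ^ n = ∏ i, T i ^ x i ∧ ∀ i, 0 ≤ x i ∧ x i < n

/-- RELK: linear relations over the cyclotomic level field. -/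
def T_RELK : Prop := ∀ (F Ω : Type) [Field F] [NumberField F] [Field Ω] [CharZero Ω] [Algebra F Ω]
  [IsAlgClosed Ω] [Algebra.IsAlgebraic F Ω] (r : ℕ) (γ : Fin r → F), (∀ i, γ i ≠ 0) →
  ∀ N K d : ℕ, 0 < N → K ∣ N → ∀ T : Fin r → Ω, (∀ i, T i ^ K = algebraMap F Ω (γ i)) →
  ∀ β : Ω, Cj F Ω (Lv F Ω γ N K) d β → ∀ S : Finset (Fin (r + 1) → ℤ), K ^ r * d < S.card →
  ∃ f : (Fin (r + 1) → ℤ) →₀ (Lv F Ω γ N 1), f ≠ 0 ∧ (∀ a ∈ f.support, a ∈ S) ∧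
    ev (Lv F Ω γ N 1) (pt T β) f = 0

/-- RWK: the rows. -/
def T_RWK : Prop := ∀ (F Ω : Type) [Field F] [NumberField F] [Field Ω] [CharZero Ω] [Algebra F Ω]
  [IsAlgClosed Ω] [Algebra.IsAlgebraic F Ω] (Kb : IntermediateField F Ω) (r : ℕ) (T : Fin r → Ω)
  (β : Ω) (Φ : ℕ → Ω ≃ₐ[F] Ω) (q : ℕ → ℕ) (s t R d0 : ℕ) (nn : Fin R → Fin (r + 1) → ℤ),
  (∀ x, Φ 0 x = x) → q 0 = 1 → Cols Kb t s d0 (yl F Ω Φ q T β) nn →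
  ∃ (a ν : ℕ) (σA : Fin a → Ω ≃ₐ[F] Ω) (κA : Fin a → Fin (r + 1) → ℕ)
    (σB : Fin ν → Ω ≃ₐ[F] Ω) (cB : Fin ν → ℕ), a + ν = R ∧ a ≤ d0 ∧
    (∀ i, (∀ z ∈ Kb, σA i z = z) ∧ ∑ l, κA i l < t) ∧
    (∀ i, (∀ z ∈ Kb, σB i z = z) ∧ 1 ≤ cB i ∧ cB i ≤ s) ∧
    LinearIndependent Ω (Sum.elim
      (fun (i : Fin a) (j : Fin R) => jc Ω (κA i) (nn j) * σA i (pt T β (nn j)))
      (fun (i : Fin ν) (j : Fin R) => σB i (yl F Ω Φ q T β (cB i) (nn j)))) ∧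
    ∀ σ : Ω ≃ₐ[F] Ω, (∀ z ∈ Kb, σ z = z) → ∀ κ : Fin (r + 1) → ℕ, ∑ l, κ l < t →
      (fun j => jc Ω κ (nn j) * σ (pt T β (nn j))) ∈ Submodule.span Ω (Set.range
        fun (i : Fin a) (j : Fin R) => jc Ω (κA i) (nn j) * σA i (pt T β (nn j)))

/-- CLK: closeness at a place above `p`. -/
def T_CLK : Prop := ∀ (F Ω : Type) [Field F] [NumberField F] [Field Ω] [CharZero Ω] [Algebra F Ω]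
  [IsAlgClosed Ω] [Algebra.IsAlgebraic F Ω] (Kb E : IntermediateField F Ω),
  (∀ (τ : Ω ≃ₐ[F] Ω), ∀ z ∈ E, τ z ∈ E) → ∀ (p f : ℕ) (δ : ℝ), p.Prime → 0 < δ → δ ≤ 1 →
  ∀ Φ : Ω ≃ₐ[F] Ω, FroK F Ω Kb E p (p ^ f) δ Φ → ∀ (M : IntermediateField F Ω) [NumberField M],
  E ≤ M → Kb ≤ M → (∀ (τ : Ω ≃ₐ[F] Ω), ∀ z ∈ M, τ z ∈ M) → ∀ w : FinitePlace M,
  w.1 (p : M) < 1 → ∀ θ : Ω ≃ₐ[F] Ω, (∀ z ∈ Kb, θ (Φ z) = z) →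
  ∃ τ : Ω ≃ₐ[F] Ω, (∀ z ∈ Kb, τ z = z) ∧
    (∀ (h : E[X]) (s : Finset Ω), (∀ x ∈ s, x ∈ M) →
      h.map (algebraMap E Ω) = ∏ x ∈ s, (X - C x) →
      ∀ U : Finset M, (∀ u : M, u ∈ U ↔ ∃ y ∈ s, (u : Ω) = τ y) →
      ∀ x : M, (∃ y ∈ s, (x : Ω) = θ y) →
      ∏ u ∈ U, dch w.1 (x ^ (p ^ f)) u ≤ w.1 (p : M) ^ δ) ∧
    ∀ (a : Ω) (b c : M), a ∈ E → (b : Ω) = θ a → (c : Ω) = τ a →
      w.1 c = w.1 b ∧ (w.1 b ≤ 1 → w.1 (b ^ (p ^ f) - c) ≤ w.1 (p : M) ^ δ)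

/-- ANBK: the determinant inequality for the points. -/
def T_ANBK : Prop := ∀ (F Ω : Type) [Field F] [NumberField F] [Field Ω] [CharZero Ω] [Algebra F Ω]
  [IsAlgClosed Ω] [Algebra.IsAlgebraic F Ω] (r : ℕ) (γ : Fin r → F), (∀ i, γ i ≠ 0) →
  ∀ Kb E : IntermediateField F Ω, FiniteDimensional F Kb → FiniteDimensional F E →
  (∀ (τ : Ω ≃ₐ[F] Ω), ∀ z ∈ Kb, τ z ∈ Kb) → (∀ (τ : Ω ≃ₐ[F] Ω), ∀ z ∈ E, τ z ∈ E) →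
  ∀ K : ℕ, 0 < K → ∀ T : Fin r → Ω, (∀ i, T i ^ K = algebraMap F Ω (γ i)) → (∀ i, T i ∈ E) →
  ∀ (s t f : ℕ) (pr q : ℕ → ℕ) (δ : ℕ → ℝ) (Φ : ℕ → Ω ≃ₐ[F] Ω), (∀ x, Φ 0 x = x) → q 0 = 1 →
  (∀ c, 1 ≤ c → c ≤ s → q c = pr c ^ f ∧ GoodP F γ (pr c) ∧ 0 < δ c ∧ δ c ≤ 1 ∧
    FroK F Ω Kb E (pr c) (pr c ^ f) (δ c) (Φ c)) →
  ∀ β g : Ω, β ≠ 0 →
  ∀ X : Finset Ω, (∀ σ : Ω ≃ₐ[F] Ω, (∀ z ∈ E, σ z = z) → σ β ∈ X) →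
  (∀ y ∈ X, ∃ σ : Ω ≃ₐ[F] Ω, (∀ z ∈ Kb, σ z = z) ∧ (∀ z ∈ E, σ z = z) ∧ σ β = y) →
  ∀ (R d0 : ℕ) (nn : Fin R → Fin (r + 1) → ℤ), Cols Kb t s d0 (yl F Ω Φ q T β) nn →
  ∃ (M : IntermediateField F Ω) (_ : NumberField M) (a ν : ℕ) (ψA : Fin a → Ω ≃ₐ[F] Ω)
    (κA : Fin a → Fin (r + 1) → ℕ) (ψB : Fin ν → Ω ≃ₐ[F] Ω) (cB : Fin ν → ℕ) (zA : Fin a → M)
    (TA : Fin a → Fin r → M) (zB : Fin ν → M) (TB : Fin ν → Fin r → M), g ∈ M ∧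
    (∀ (τ : Ω ≃ₐ[F] Ω), ∀ z ∈ M, τ z ∈ M) ∧ a + ν = R ∧ a ≤ d0 ∧
    (∀ i, (zA i : Ω) = ψA i β ∧ (∀ l, (TA i l : Ω) = ψA i (T l)) ∧ ∑ l, κA i l < t) ∧
    (∀ i, (zB i : Ω) = ψB i β ∧ (∀ l, (TB i l : Ω) = ψB i (T l)) ∧ 1 ≤ cB i ∧ cB i ≤ s) ∧
    (∑ i, t * δ (cB i) * Real.log (pr (cB i))) * Module.finrank ℚ M ≤
      Module.finrank ℚ M * (R * Real.log R) +
      ∑ i, logHeight (fun j => jc M (κA i) (nn j) * pt (TA i) (zA i) (nn j)) +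
      ∑ i, logHeight (fun j => (pt (TB i) (zB i) (nn j)) ^ (q (cB i)))

/-- ANAK: the analytic inequality. -/
def T_ANAK : Prop := ∀ (F Ω : Type) [Field F] [NumberField F] [Field Ω] [CharZero Ω] [Algebra F Ω]
  [IsAlgClosed Ω] [Algebra.IsAlgebraic F Ω] (r : ℕ) (γ : Fin r → F), (∀ i, γ i ≠ 0) →
  ∀ Kb E : IntermediateField F Ω, FiniteDimensional F Kb → FiniteDimensional F E →
  (∀ (τ : Ω ≃ₐ[F] Ω), ∀ z ∈ Kb, τ z ∈ Kb) → (∀ (τ : Ω ≃ₐ[F] Ω), ∀ z ∈ E, τ z ∈ E) →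
  ∀ K : ℕ, 0 < K → ∀ T : Fin r → Ω, (∀ i, T i ^ K = algebraMap F Ω (γ i)) → (∀ i, T i ∈ E) →
  ∀ (s t f : ℕ) (pr q : ℕ → ℕ) (δ : ℕ → ℝ) (Φ : ℕ → Ω ≃ₐ[F] Ω), (∀ x, Φ 0 x = x) → q 0 = 1 →
  (∀ c, 1 ≤ c → c ≤ s → q c = pr c ^ f ∧ GoodP F γ (pr c) ∧ 0 < δ c ∧ δ c ≤ 1 ∧
    FroK F Ω Kb E (pr c) (pr c ^ f) (δ c) (Φ c)) →
  ∀ β g : Ω, β ≠ 0 → g ≠ 0 → ∀ (n : ℕ) (x : Fin r → ℤ), 0 < n → g ^ n = ∏ i, T i ^ x i →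
  (∀ i, 0 ≤ x i ∧ x i < n) →
  ∀ X : Finset Ω, (∀ σ : Ω ≃ₐ[F] Ω, (∀ z ∈ E, σ z = z) → σ β ∈ X) →
  (∀ y ∈ X, ∃ σ : Ω ≃ₐ[F] Ω, (∀ z ∈ Kb, σ z = z) ∧ (∀ z ∈ E, σ z = z) ∧ σ β = y) →
  0 < absLogHeight₁ (β * g) → ∀ G Q ρ : ℝ, 0 ≤ G → 1 ≤ Q → 0 ≤ ρ →
  (∀ c, 1 ≤ c → c ≤ s → G ≤ δ c * Real.log (pr c) ∧ (q c : ℝ) ≤ Q) →
  ∀ (R d0 : ℕ) (nn : Fin R → Fin (r + 1) → ℤ), Function.Injective nn →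
  (∀ j, nrm r (absLogHeight₁ (β * g)) (Hg F Ω γ / K) (fun i => (x i : ℝ) / n) (nn j) ≤ ρ) →
  Cols Kb t s d0 (yl F Ω Φ q T β) nn →
  ((R : ℝ) - d0) * (t * G) ≤ R * Real.log R + 4 * R * ρ * Q +
    d0 * t * Real.log (1 + ρ * K + ρ / absLogHeight₁ (β * g))

/-- CORK: the core. -/
def T_CORK : Prop := ∀ (F Ω : Type) [Field F] [NumberField F] [Field Ω] [CharZero Ω] [Algebra F Ω]
  [IsAlgClosed Ω] [Algebra.IsAlgebraic F Ω] (r : ℕ) (γ : Fin r → F), MInd F γ →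
  ∀ (N K d : ℕ), 0 < N → K ∣ N → ∀ E : IntermediateField F Ω, E ≤ Lv F Ω γ N K →
  (∀ (τ : Ω ≃ₐ[F] Ω), ∀ z ∈ E, τ z ∈ E) →
  ∀ T : Fin r → Ω, (∀ i, T i ^ K = algebraMap F Ω (γ i)) → (∀ i, T i ∈ E) →
  ∀ (s t f : ℕ) (pr q : ℕ → ℕ) (δ : ℕ → ℝ) (Φ : ℕ → Ω ≃ₐ[F] Ω), 1 ≤ t → (∀ x, Φ 0 x = x) →
  q 0 = 1 → (∀ c, 1 ≤ c → c ≤ s → q c = pr c ^ f ∧ GoodP F γ (pr c) ∧ 0 < δ c ∧ δ c ≤ 1 ∧
    8 ≤ pr c ^ f ∧ pr c ^ f ∣ N ∧ FroK F Ω (Lv F Ω γ N 1) E (pr c) (pr c ^ f) (δ c) (Φ c)) →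
  (∀ c₁ c₂, 1 ≤ c₁ → c₁ < c₂ → c₂ ≤ s → pr c₁ ^ f < pr c₂ ^ f) →
  ∀ β g : Ω, β ≠ 0 → g ≠ 0 → ∀ (n : ℕ) (x : Fin r → ℤ), 0 < n → g ^ n = ∏ i, T i ^ x i →
  (∀ i, 0 ≤ x i ∧ x i < n) → Cj F Ω (Lv F Ω γ N K) d β →
  ∀ X : Finset Ω, (∀ σ : Ω ≃ₐ[F] Ω, (∀ z ∈ E, σ z = z) → σ β ∈ X) →
  (∀ y ∈ X, ∃ σ : Ω ≃ₐ[F] Ω, (∀ z ∈ Lv F Ω γ N K, σ z = z) ∧ σ β = y) →
  β * g ∉ Dv F Ω γ → ∀ G Q ρ σ : ℝ, 0 ≤ G → 1 ≤ Q → 0 ≤ σ →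
  (∀ c, 1 ≤ c → c ≤ s → G ≤ δ c * Real.log (pr c) ∧ (q c : ℝ) ≤ Q) →
  64 * (t + s) * (r + 2) * Q ^ (r + 1) * σ ≤ ρ →
  ∀ S : Finset (Fin (r + 1) → ℤ), (∀ a ∈ S,
    nrm r (absLogHeight₁ (β * g)) (Hg F Ω γ / K) (fun i => (x i : ℝ) / n) a ≤ σ) →
  K ^ r * d < S.card → ∃ R d0 r0 : ℕ, 1 ≤ r0 ∧ d0 ≤ t ^ (r + 1) * r0 ∧ d0 + s * r0 ≤ R ∧
    (R : ℝ) ≤ (2 * (ρ * K + ρ / absLogHeight₁ (β * g)) + 1) ^ (r + 1) ∧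
    ((R : ℝ) - d0) * (t * G) ≤ R * Real.log R + 4 * R * ρ * Q +
      d0 * t * Real.log (1 + ρ * K + ρ / absLogHeight₁ (β * g))

/-! ## E. The theorem over the level fields -/

/-- PRMS: many small primes. -/
def T_PRMS : Prop := ∃ C : ℕ, ∀ A n : ℕ, ∃ P : Finset ℕ, P.card = n ∧
  ∀ p ∈ P, p.Prime ∧ A < p ∧ p ≤ C * (A + n + 1) ^ 2

/-- NUK: choice of the parameters. -/
def T_NUK : Prop := ∀ (r f CP Y0 : ℕ) (H c₁ c₃ : ℝ), 1 ≤ f → 1 ≤ H → 0 < c₁ → 0 < c₃ →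
  ∃ (c : ℝ) (C : ℕ), 0 < c ∧ ∀ (K d : ℕ) (lam : ℝ), 0 < K → 0 < d → 0 < lam →
  c₁ ≤ lam * ((K : ℝ) ^ r * d) ^ 2 → lam * d * (Real.log (3 * d * K)) ^ C < c →
  ∃ (s t A n : ℕ) (σ ρ Q G : ℝ), 1 ≤ t ∧ 0 < σ ∧ 0 ≤ G ∧ 1 ≤ Q ∧ Y0 ≤ A ∧ 8 ≤ A ∧
    s + Nat.log 2 K ≤ n ∧
    (∀ p : ℕ, A < p → p ≤ CP * (A + n + 1) ^ 2 →
      2 * Real.log (d * p) + 1 < ((p : ℝ) - 1) * Real.log p ∧ 2 * d * (p : ℝ) ^ 2 * lam ≤ 1 ∧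
      (p : ℝ) ^ f ≤ Q ∧
      G ≤ Real.log p / (2 * Real.log (d * p) + 1 + Real.log p) * Real.log p) ∧
    64 * (t + s) * (r + 2) * Q ^ (r + 1) * σ ≤ ρ ∧
    (K : ℝ) ^ r * d < c₃ * σ ^ (r + 1) / (lam * (H / K) ^ r) ∧
    ∀ R d0 r0 : ℕ, 1 ≤ r0 → d0 ≤ t ^ (r + 1) * r0 → d0 + s * r0 ≤ R →
      (R : ℝ) ≤ (2 * (ρ * K + ρ / lam) + 1) ^ (r + 1) →
      R * Real.log R + 4 * R * ρ * Q + d0 * t * Real.log (1 + ρ * K + ρ / lam) <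
        ((R : ℝ) - d0) * (t * G)

/-- LOGR: the theorem over the level fields. -/
def T_LOGR : Prop := ∀ (F Ω : Type) [Field F] [NumberField F] [Field Ω] [CharZero Ω] [Algebra F Ω]
  [IsAlgClosed Ω] [Algebra.IsAlgebraic F Ω] (r : ℕ) (γ : Fin r → F), MInd F γ →
  ∃ (c : ℝ) (C : ℕ), 0 < c ∧ ∀ N K d : ℕ, 0 < N → K ∣ N → 0 < d → ∀ α : Ω,
  RepD F Ω γ N K d α → α ∉ Dv F Ω γ →
  c ≤ absLogHeight₁ α * d * (Real.log (3 * d * K)) ^ C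

/-- LOGL: the same for numbers which are not reduced. -/
def T_LOGL : Prop := ∀ (F Ω : Type) [Field F] [NumberField F] [Field Ω] [CharZero Ω] [Algebra F Ω]
  [IsAlgClosed Ω] [Algebra.IsAlgebraic F Ω] (r : ℕ) (γ : Fin r → F), MInd F γ →
  ∃ (c : ℝ) (C : ℕ), 0 < c ∧ ∀ N K d : ℕ, 0 < N → K ∣ N → 0 < d → ∀ β g : Ω, β ≠ 0 →
  Cj F Ω (Lv F Ω γ N K) d β → g ∈ Dv F Ω γ → β * g ∉ Dv F Ω γ →
  c ≤ absLogHeight₁ (β * g) * d * (Real.log (3 * d * K)) ^ C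

/-! ## F. Kummer theory and the result -/

/-- KTA: roots of elements of the group in cyclotomic fields. -/
def T_KTA : Prop := ∀ (F Ω : Type) [Field F] [NumberField F] [Field Ω] [CharZero Ω] [Algebra F Ω]
  [IsAlgClosed Ω] [Algebra.IsAlgebraic F Ω] (r : ℕ) (γ : Fin r → F), MInd F γ →
  ∃ i₀ : ℕ, 0 < i₀ ∧ ∀ N : ℕ, 0 < N → ∀ (x : Fin r → ℤ) (y : Ω), y ∈ Lv F Ω γ N 1 →
  y ^ N = ∏ i, (algebraMap F Ω (γ i)) ^ x i → ∀ i, (N : ℤ) ∣ i₀ * x i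

/-- KGA: the Kummer group is large. -/
def T_KGA : Prop := ∀ (F Ω : Type) [Field F] [NumberField F] [Field Ω] [CharZero Ω] [Algebra F Ω]
  [IsAlgClosed Ω] [Algebra.IsAlgebraic F Ω] (r : ℕ) (γ : Fin r → F), MInd F γ →
  ∃ i₀ : ℕ, 0 < i₀ ∧ ∀ N : ℕ, 0 < N → ∀ (ζ : Ω) (T : Fin r → Ω), IsPrimitiveRoot ζ N →
  (∀ i, T i ^ N = algebraMap F Ω (γ i)) → ∀ b : Fin r → ℕ, ∃ σ : Ω ≃ₐ[F] Ω,
    (∀ z ∈ Lv F Ω γ N 1, σ z = z) ∧ ∀ i, σ (T i) = ζ ^ (i₀ * b i) * T i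

/-- KLV: the level of a number. -/
def T_KLV : Prop := ∀ (F Ω : Type) [Field F] [NumberField F] [Field Ω] [CharZero Ω] [Algebra F Ω]
  [IsAlgClosed Ω] [Algebra.IsAlgebraic F Ω] (r : ℕ) (γ : Fin r → F), MInd F γ →
  ∃ i₀ : ℕ, 0 < i₀ ∧ ∀ (N d D : ℕ) (β : Ω), 0 < N → Cj F Ω (Lv F Ω γ N N) d β →
  Cj F Ω (Lv F Ω γ N 1) D β →
  ∃ K : ℕ, 0 < K ∧ K ∣ N ∧ K ≤ i₀ * D ∧ Cj F Ω (Lv F Ω γ N K) d β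

/-- CFA: finitely many elements of the big fields lie in level fields. -/
def T_CFA : Prop := ∀ (Γ : Subgroup (AlgebraicClosure ℚ)ˣ)
  (F' : IntermediateField ℚ (AlgebraicClosure ℚ)) [NumberField F'] (r : ℕ)
  (g : Fin r → (AlgebraicClosure ℚ)ˣ) (γ : Fin r → F'),
  (∀ i, ((γ i : F') : AlgebraicClosure ℚ) = g i) →
  (∀ a ∈ Γ, ∃ (x : Fin r → ℤ) (ξ : (AlgebraicClosure ℚ)ˣ) (j : ℕ), 0 < j ∧ ξ ^ j = 1 ∧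
      a = ξ * ∏ i, g i ^ x i) →
  ∀ s s' : Finset (AlgebraicClosure ℚ), (∀ z ∈ s, z ∈ IntermediateField.adjoin ℚ
      {z : AlgebraicClosure ℚ | ∃ n : ℕ, 0 < n ∧ ∃ g ∈ Γ, z ^ n = (g : AlgebraicClosure ℚ)}) →
  (∀ z ∈ s', z ∈ IntermediateField.adjoin ℚ
      {z : AlgebraicClosure ℚ | ∃ n : ℕ, 0 < n ∧ z ^ n = 1}) →
  ∃ N : ℕ, 0 < N ∧ (∀ z ∈ s, z ∈ Lv F' (AlgebraicClosure ℚ) γ N N) ∧
    ∀ z ∈ s', z ∈ Lv F' (AlgebraicClosure ℚ) γ N 1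

/-- MLOG: the result. -/
def T_MLOG : Prop := ∀ (Γ : Subgroup (AlgebraicClosure ℚ)ˣ), Γ.FG → ∃ (c : ℝ) (C : ℕ), 0 < c ∧
  ∀ L A : IntermediateField ℚ (AlgebraicClosure ℚ),
  L = IntermediateField.adjoin ℚ
      {z : AlgebraicClosure ℚ | ∃ n : ℕ, 0 < n ∧ ∃ g ∈ Γ, z ^ n = (g : AlgebraicClosure ℚ)} →
  A = IntermediateField.adjoin ℚ {z : AlgebraicClosure ℚ | ∃ n : ℕ, 0 < n ∧ z ^ n = 1} →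
  ∀ β γ : AlgebraicClosure ℚ, (∃ n : ℕ, 0 < n ∧ ∃ g ∈ Γ, γ ^ n = (g : AlgebraicClosure ℚ)) →
  β * γ ≠ 0 → (¬ ∃ n : ℕ, 0 < n ∧ ∃ g ∈ Γ, (β * γ) ^ n = (g : AlgebraicClosure ℚ)) →
  c ≤ absLogHeight₁ (β * γ) * Module.finrank L (IntermediateField.adjoin L {β}) *
    (Real.log (3 * Module.finrank A (IntermediateField.adjoin A {β}))) ^ C

end Pool.Agent.H29.LG
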