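import Pool.Agent.H29.SX.Targets

set_option autoImplicit false

/-!
# MP_c65535_nt, all radicals: definitions

Lower bounds for heights relative to the field of all radicals of a finitely generated group, sharp
up to a power of a logarithm. The primes at which nothing bad happens, the bound for the
ramification, the (noncentral) Frobenius substitutions, and the points.
-/

namespace Pool.Agent.H29.LG

open NumberField Height Finset Polynomial Pool.Agent.H24.RD Pool.Agent.H23.RDD Pool.Agent.H29.RQ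
  Pool.Agent.H29.SX

/-- The primes which are unramified in `F` and at which the `γ i` are units. -/
def GoodP (F : Type) [Field F] [NumberField F] {r : ℕ} (γ : Fin r → F) (p : ℕ) : Prop :=
  p.Prime ∧ ∀ w : FinitePlace F, w.1 (p : F) < 1 →
    (∀ x : F, x ≠ 0 → ∃ n : ℤ, w.1 x = w.1 (p : F) ^ n) ∧ ∀ i, w.1 (γ i) = 1

/-- The elements of `E` of absolute value less than one at a place above `p` have absolute value at
most `|p| ^ δ`. -/
def RamL (F Ω : Type) [Field F] [Field Ω] [Algebra F Ω] (E : IntermediateField F Ω) (p : ℕ)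
    (δ : ℝ) : Prop :=
  ∀ (M : IntermediateField F Ω) [NumberField M], E ≤ M → ∀ w : FinitePlace M, w.1 (p : M) < 1 →
    ∀ x : M, (x : Ω) ∈ E → w.1 x < 1 → w.1 x ≤ w.1 (p : M) ^ δ

/-- At every place above `p` there is an automorphism which agrees with `Φ` on `Kb` and acts on `E`
like the `q`-th power. -/
def FroK (F Ω : Type) [Field F] [Field Ω] [Algebra F Ω] (Kb E : IntermediateField F Ω) (p q : ℕ)
    (δ : ℝ) (Φ : Ω ≃ₐ[F] Ω) : Prop :=
  ∀ (M : IntermediateField F Ω) [NumberField M], E ≤ M → Kb ≤ M →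
    (∀ (τ : Ω ≃ₐ[F] Ω), ∀ z ∈ M, τ z ∈ M) → ∀ w : FinitePlace M, w.1 (p : M) < 1 →
    ∃ ψ : Ω ≃ₐ[F] Ω, (∀ z ∈ Kb, ψ z = Φ z) ∧
      ∀ x x' : M, (x : Ω) ∈ E → (x' : Ω) = ψ (x : Ω) →
        w.1 x' = w.1 x ∧ (w.1 x ≤ 1 → w.1 (x' - x ^ q) ≤ w.1 (p : M) ^ δ)

/-- The points: `c = 0` gives the point with the coordinates `β`, `T 0`, `T 1`, ... when `Φ 0` is
the identity and `q 0 = 1`. -/
noncomputable def yl (F Ω : Type) [Field F] [Field Ω] [Algebra F Ω] (Φ : ℕ → Ω ≃ₐ[F] Ω)
    (q : ℕ → ℕ) {r : ℕ} (T : Fin r → Ω) (β : Ω) (c : ℕ) (a : Fin (r + 1) → ℤ) : Ω :=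
  ((Φ c).symm (pt T β a)) ^ (q c)

end Pool.Agent.H29.LG
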